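import Mathlib

namespace Pool.Agent.H.MP_67b01c_gt
open Set NNReal

variable {H : Type}

/-- Two vertices of the cube `{0,1}^H` are adjacent when they differ in exactly one coordinate. -/
def Adj (v w : H → Bool) : Prop := ∃ h, v h ≠ w h ∧ ∀ k, k ≠ h → v k = w k

/-- `V` is the vertex set of a CAT(0) cube complex with walls `H`: nonempty, closed under the
coordinatewise majority (median) and connected by edges, so its graph is a median graph. -/
def IsCAT0 (V : Set (H → Bool)) : Prop :=
  V.Nonempty ∧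
  (∀ u ∈ V, ∀ v ∈ V, ∀ w ∈ V, (fun h => (u h && v h) || (u h && w h) || (v h && w h)) ∈ V) ∧
  ∀ v ∈ V, ∀ w ∈ V, Relation.ReflTransGen (fun a b => b ∈ V ∧ Adj a b) v w

/-- The symmetry of `{0,1}^H` permuting the coordinates by `π` and flipping those in `c`. -/
def act (π : H ≃ H) (c : H → Bool) (w : H → Bool) : H → Bool := fun h => xor (c h) (w (π h))

/-- Locally finite, and the group of symmetries preserving `V` has finitely many vertex orbits. -/
def Cocompact (V : Set (H → Bool)) : Prop :=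
  (∀ v ∈ V, {w ∈ V | Adj v w}.Finite) ∧
  ∃ F : Set (H → Bool), F.Finite ∧ ∀ v ∈ V, ∃ (π : H ≃ H) (c : H → Bool),
    (∀ w, w ∈ V ↔ act π c w ∈ V) ∧ act π c v ∈ F

/-- `(v, S)` is a cube of the complex (all its vertices lie in `V`) and `x` is a point of it. -/
def InCube (V : Set (H → Bool)) (v : H → Bool) (S : Finset H) (x : H → ℝ) : Prop :=
  (∀ w : H → Bool, (∀ h ∉ S, w h = v h) → w ∈ V) ∧ (∀ h ∈ S, x h ∈ Icc (0 : ℝ) 1) ∧
    ∀ h ∉ S, x h = if v h then 1 else 0

/-- Points of the cube complex. -/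
def Pt (V : Set (H → Bool)) : Type := {x : H → ℝ // ∃ v S, InCube V v S x}

/-- `x, y` lie in a common cube at `ℓ^p` distance `c`. -/
def Step (V : Set (H → Bool)) (p : ℝ) (x y : Pt V) (c : ℝ) : Prop :=
  ∃ v S, InCube V v S x.1 ∧ InCube V v S y.1 ∧ c = (∑ h ∈ S, |x.1 h - y.1 h| ^ p) ^ (1 / p)

/-- Chains of steps with their total length. -/
inductive Chain (V : Set (H → Bool)) (p : ℝ) : Pt V → Pt V → ℝ → Prop
  | nil (x : Pt V) : Chain V p x x 0
  | cons {x y z : Pt V} {c c' : ℝ} : Step V p x y c → Chain V p y z c' → Chain V p x z (c + c')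

/-- The piecewise `ℓ^p` gluing metric. -/
noncomputable def dp (V : Set (H → Bool)) (p : ℝ) (x y : Pt V) : ℝ := sInf {c | Chain V p x y c}

/-- Geodesic bicombing for the distance `d`. -/
def IsBicombing {X : Type} (d : X → X → ℝ) (σ : X → X → ℝ → X) : Prop :=
  ∀ x y, σ x y 0 = x ∧ σ x y 1 = y ∧
    ∀ s ∈ Icc (0 : ℝ) 1, ∀ t ∈ Icc (0 : ℝ) 1, d (σ x y s) (σ x y t) = |s - t| * d x y

/-- The unit speed `σ`-geodesic from `o` to `x`, constant after reaching `x`. -/
noncomputable def gen {X : Type} (d : X → X → ℝ) (σ : X → X → ℝ → X) (o x : X) : ℝ≥0 → X :=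
  fun t => σ o x (min 1 (t / d o x))

/-- The compactification: the paths `gen d σ o x` (points of `X`) and the `σ`-rays from `o`. -/
def Bar {X : Type} (d : X → X → ℝ) (σ : X → X → ℝ → X) (o : X) : Set (ℝ≥0 → X) :=
  {c | (∃ x, c = gen d σ o x) ∨
    (c 0 = o ∧ ∀ T : ℝ≥0, d o (c T) = T ∧ ∀ s : ℝ≥0, s ≤ 1 → c (s * T) = σ o (c T) s)}

/-- The cone topology: pointwise convergence of paths for the metric `m`. -/
@[reducible] def coneTop {X : Type} (m : MetricSpace X) (A : Set (ℝ≥0 → X)) :
    TopologicalSpace A :=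
  letI := m
  inferInstance

variable {V : Set (H → Bool)} {p : ℝ}

lemma Step.nonneg {x y : Pt V} {c : ℝ} (h : Step V p x y c) : 0 ≤ c := by
  obtain ⟨v, S, -, -, rfl⟩ := h
  positivity

lemma Step.symm {x y : Pt V} {c : ℝ} (h : Step V p x y c) : Step V p y x c := by
  obtain ⟨v, S, h1, h2, rfl⟩ := h
  exact ⟨v, S, h2, h1, by simp only [abs_sub_comm]⟩

lemma Chain.nonneg {x y : Pt V} {c : ℝ} (h : Chain V p x y c) : 0 ≤ c := by
  induction h with
  | nil x => exact le_rfl
  | cons h _ ih => exact add_nonneg h.nonneg ih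

lemma Chain.trans {x y z : Pt V} {c c' : ℝ} (h : Chain V p x y c) (h' : Chain V p y z c') :
    Chain V p x z (c + c') := by
  induction h with
  | nil x => simpa using h'
  | cons h _ ih => rw [add_assoc]; exact Chain.cons h (ih h')

lemma Step.chain {x y : Pt V} {c : ℝ} (h : Step V p x y c) : Chain V p x y c := by
  simpa using Chain.cons h (Chain.nil y)

lemma Chain.symm {x y : Pt V} {c : ℝ} (h : Chain V p x y c) : Chain V p y x c := by
  induction h with
  | nil x => exact Chain.nil x
  | cons h _ ih => rw [add_comm]; exact ih.trans h.symm.chain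

lemma Chain.dp_le {x y : Pt V} {c : ℝ} (h : Chain V p x y c) : dp V p x y ≤ c :=
  csInf_le ⟨0, fun _ h => Chain.nonneg h⟩ h

lemma dp_nonneg (x y : Pt V) : 0 ≤ dp V p x y := Real.sInf_nonneg fun _ h => Chain.nonneg h

/-- vertex as a point -/
noncomputable def vtx (v : H → Bool) (hv : v ∈ V) : Pt V :=
  ⟨fun h => if v h then 1 else 0, v, ∅, fun w hw => by
    have : w = v := funext fun h => hw h (by simp)
    rwa [this], by simp, by simp⟩

lemma chain_ex (hV : IsCAT0 V) (x y : Pt V) : ∃ c, Chain V p x y c := by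
  have key : ∀ x : Pt V, ∃ v, ∃ hv : v ∈ V, ∃ c, Chain V p x (vtx v hv) c := by
    rintro ⟨x, v, S, hx⟩
    refine ⟨v, hx.1 v fun _ _ => rfl, _, Step.chain ⟨v, S, hx, ⟨hx.1, fun h _ => ?_, fun h _ => rfl⟩, rfl⟩⟩
    simp only [vtx]; split_ifs <;> simp
  obtain ⟨v, hv, c, hc⟩ := key x
  obtain ⟨w, hw, c', hc'⟩ := key y
  have : ∀ w, Relation.ReflTransGen (fun a b => b ∈ V ∧ Adj a b) v w → ∀ hw : w ∈ V,
      ∃ c, Chain V p (vtx v hv) (vtx w hw) c := by
    intro w h
    induction h with
    | refl => exact fun _ => ⟨0, Chain.nil _⟩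
    | @tail a b hab hb ih =>
      intro hb'
      have ha : a ∈ V := by
        rcases hab.cases_tail with rfl | ⟨_, _, h, _⟩
        exacts [hv, h]
      obtain ⟨c, hc⟩ := ih ha
      obtain ⟨h, h1, h2⟩ := hb.2
      classical
      have hcube : ∀ w : H → Bool, (∀ k ∉ ({h} : Finset H), w k = a k) → w ∈ V := by
        intro w hw
        by_cases e : w h = a h
        · have : w = a := funext fun k => by
            by_cases hk : k = h
            · rw [hk, e]
            · exact hw k (by simpa using hk)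
          rwa [this]
        · have : w = b := funext fun k => by
            by_cases hk : k = h
            · subst hk; revert e h1; cases w k <;> cases a k <;> cases b k <;> simp
            · rw [hw k (by simpa using hk), h2 k hk]
          rwa [this]
      refine ⟨_, hc.trans (Step.chain (y := vtx b hb') ⟨a, {h}, ⟨hcube, fun k _ => ?_, fun k _ => rfl⟩,
        ⟨hcube, fun k _ => ?_, fun k hk => ?_⟩, rfl⟩)⟩
      · simp only [vtx]; split_ifs <;> simp
      · simp only [vtx]; split_ifs <;> simp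
      · simp only [vtx]; rw [h2 k (by simpa using hk)]
  obtain ⟨c'', hc''⟩ := this w (hV.2.2 v hv w hw) hw
  exact ⟨_, (hc.trans hc'').trans hc'.symm⟩

lemma le_dp (hV : IsCAT0 V) (N : Pt V → Pt V → ℝ) (h0 : ∀ x, N x x ≤ 0)
    (htri : ∀ x y z, N x z ≤ N x y + N y z) (hst : ∀ x y c, Step V p x y c → N x y ≤ c)
    (x y : Pt V) : N x y ≤ dp V p x y := by
  refine le_csInf (chain_ex hV x y) fun c hc => ?_
  replace hc : Chain V p x y c := hc
  induction hc with
  | nil x => exact h0 x
  | cons h _ ih => exact (htri _ _ _).trans (add_le_add (hst _ _ _ h) ih)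

lemma coord_le (hV : IsCAT0 V) (hp : 1 ≤ p) (h : H) (x y : Pt V) :
    |x.1 h - y.1 h| ≤ dp V p x y := by
  refine le_dp hV (fun x y => |x.1 h - y.1 h|) (by simp) (fun x y z => abs_sub_le _ _ _) ?_ x y
  rintro x y c ⟨v, S, hx, hy, rfl⟩
  by_cases hh : h ∈ S
  · have h1 : |x.1 h - y.1 h| ^ p ≤ ∑ h ∈ S, |x.1 h - y.1 h| ^ p :=
      Finset.single_le_sum (f := fun h => |x.1 h - y.1 h| ^ p) (fun _ _ => by positivity) hh
    have := Real.rpow_le_rpow (by positivity) h1 (by positivity : 0 ≤ 1 / p)
    rwa [← Real.rpow_mul (abs_nonneg _), mul_one_div_cancel (by positivity), Real.rpow_one] at this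
  · simp only [hx.2.2 h hh, hy.2.2 h hh, sub_self, abs_zero]
    positivity

/-- the gluing distance is a metric -/
@[reducible] noncomputable def met (hV : IsCAT0 V) (hp : 1 ≤ p) : MetricSpace (Pt V) where
  dist := dp V p
  dist_self x := le_antisymm (Chain.nil x).dp_le (dp_nonneg _ _)
  dist_comm x y := by
    unfold dp; congr 1; ext c; exact ⟨Chain.symm, Chain.symm⟩
  dist_triangle x y z := by
    have h1 : ∀ c, Chain V p x y c → dp V p x z - c ≤ dp V p y z := fun c hc =>
      le_csInf (chain_ex hV y z) fun c' hc' => by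
        have := (hc.trans hc').dp_le; linarith
    have h2 : dp V p x z - dp V p y z ≤ dp V p x y :=
      le_csInf (chain_ex hV x y) fun c hc => by have := h1 c hc; linarith
    linarith
  eq_of_dist_eq_zero {x y} h := by
    refine Subtype.ext (funext fun k => ?_)
    have := coord_le hV hp k x y
    have h : dp V p x y = 0 := h
    rw [h] at this
    exact sub_eq_zero.1 (abs_nonpos_iff.1 this)

end Pool.Agent.H.MP_67b01c_gt
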