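import Pool.Agent.H.MP_67b01c_gt.A

namespace Pool.Agent.H.MP_67b01c_gt
open Set

abbrev G := Fin 16 → Bool
abbrev W := Bool × List G × Fin 16
def z : G := fun _ => false

def VV : Set (W → Bool) := {w | {h | w h = true}.Finite ∧ ∀ b l g i, w (b, l ++ [g], i) = true →
  (∀ j, w (b, l, j) = g j) ∧ (g ≠ z ∨ l = [])}

lemma ne_z {g : G} (h : g ≠ z) : ∃ j, g j = true := by
  by_contra hc
  push Not at hc
  exact h (funext fun j => by simpa [z] using hc j)

lemma zero_mem : (fun _ => false) ∈ VV := ⟨by simp, by simp⟩

lemma conn_zero (n : ℕ) : ∀ v ∈ VV, {h | v h = true}.ncard = n →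
    Relation.ReflTransGen (fun a b => b ∈ VV ∧ Adj a b) v (fun _ => false) ∧
    Relation.ReflTransGen (fun a b => b ∈ VV ∧ Adj a b) (fun _ => false) v := by
  induction n using Nat.strong_induction_on with
  | _ n ih =>
  intro v hv hn
  by_cases he : {h | v h = true}.Nonempty
  · obtain ⟨h, hh, hmax⟩ := exists_max_image _ (fun h : W => h.2.1.length) hv.1 he
    have hh : v h = true := hh
    set v' := Function.update v h false with hv'
    have hs : {k | v' k = true} = {k | v k = true} \ {h} := by
      ext k; by_cases e : k = h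
      · subst e; simp [hv']
      · simp [hv', e]
    have hm : v' ∈ VV := by
      refine ⟨hs ▸ hv.1.diff, fun b l g i hw => ?_⟩
      have h1 : (b, l ++ [g], i) ∈ {k | v' k = true} := hw
      rw [hs] at h1
      refine ⟨fun j => ?_, (hv.2 b l g i h1.1).2⟩
      have : (b, l, j) ≠ h := by
        rintro rfl
        have := hmax _ h1.1
        simp at this
      rw [hv', Function.update_of_ne this]
      exact (hv.2 b l g i h1.1).1 j
    have hlt : {k | v' k = true}.ncard < n := by
      rw [hs, ← hn]; exact ncard_diff_singleton_lt_of_mem hh hv.1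
    obtain ⟨i1, i2⟩ := ih _ hlt v' hm rfl
    refine ⟨.head ⟨hm, h, by simp [hv', hh], fun k hk => by simp [hv', hk]⟩ i1,
      i2.tail ⟨hv, h, by simp [hv', hh], fun k hk => by simp [hv', hk]⟩⟩
  · have : v = fun _ => false := funext fun h => by
      by_contra hc; exact he ⟨h, by simpa using hc⟩
    subst this; exact ⟨.refl, .refl⟩

lemma isCAT0 : IsCAT0 VV := by
  refine ⟨⟨_, zero_mem⟩, fun u hu v hv w hw => ⟨?_, fun b l g i h => ?_⟩, fun v hv w hw =>
    (conn_zero _ v hv rfl).1.trans (conn_zero _ w hw rfl).2⟩
  · refine (hu.1.union hv.1).subset fun h hh => ?_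
    simp only [mem_setOf_eq, mem_union] at hh ⊢
    revert hh; cases u h <;> cases v h <;> simp
  · have hu' := hu.2 b l g i
    have hv' := hv.2 b l g i
    have hw' := hw.2 b l g i
    simp only [Bool.or_eq_true, Bool.and_eq_true] at h
    rcases h with (⟨h1, h2⟩ | ⟨h1, h2⟩) | ⟨h1, h2⟩
    · refine ⟨fun j => ?_, (hu' h1).2⟩
      simp only [(hu' h1).1 j, (hv' h2).1 j]; cases g j <;> simp
    · refine ⟨fun j => ?_, (hu' h1).2⟩
      simp only [(hu' h1).1 j, (hw' h2).1 j]; cases g j <;> simp
    · refine ⟨fun j => ?_, (hv' h1).2⟩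
      simp only [(hv' h1).1 j, (hw' h2).1 j]; cases g j <;> simp

lemma fin_len (M : ℕ) : {h : W | h.2.1.length ≤ M}.Finite := by
  refine ((finite_univ (α := Bool)).prod ((List.finite_length_le G M).prod
    (finite_univ (α := Fin 16)))).subset fun h hh => ⟨trivial, hh, trivial⟩

lemma locfin (v : W → Bool) (hv : v ∈ VV) : {w ∈ VV | Adj v w}.Finite := by
  obtain ⟨M, hM⟩ := (hv.1.image fun h : W => h.2.1.length).bddAbove
  have hM' : ∀ h, v h = true → h.2.1.length ≤ M := fun h hh => hM ⟨h, hh, rfl⟩
  refine ((fin_len (M + 1)).image fun h => Function.update v h (!v h)).subset ?_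
  rintro w ⟨hw, ⟨b, l, i⟩, h1, h2⟩
  refine ⟨(b, l, i), ?_, funext fun k => ?_⟩
  · show l.length ≤ M + 1
    cases e : v (b, l, i)
    · have hw1 : w (b, l, i) = true := by simpa [e] using h1
      rcases List.eq_nil_or_concat l with rfl | ⟨l', g, rfl⟩
      · simp
      · rw [List.concat_eq_append] at *
        obtain ⟨h3, h4 | rfl⟩ := hw.2 b l' g i hw1
        · obtain ⟨j, hj⟩ := ne_z h4
          have := hM' (b, l', j) (by rw [h2 _ (by simp), h3, hj])
          simpa using this
        · simp
    · exact (hM' _ e).trans (Nat.le_succ _)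
  · by_cases e : k = (b, l, i)
    · subst e; revert h1; cases hv : v (b, l, i) <;> cases w (b, l, i) <;> simp [hv]
    · simp [e, h2 k e]

def IsAut (π : W ≃ W) (c : W → Bool) : Prop := ∀ w, w ∈ VV ↔ act π c w ∈ VV

lemma act_act (π π' : W ≃ W) (c c' w : W → Bool) :
    act π' c' (act π c w) = act (π'.trans π) (fun h => xor (c' h) (c (π' h))) w := by
  funext h; simp [act]

lemma IsAut.comp {π π' : W ≃ W} {c c' : W → Bool} (h : IsAut π c) (h' : IsAut π' c') :
    IsAut (π'.trans π) (fun h => xor (c' h) (c (π' h))) := fun w => by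
  rw [← act_act, ← h', ← h]

lemma aut_of {π : W ≃ W} {c : W → Bool} (h1 : ∀ h, π (π h) = h) (h2 : ∀ h, c (π h) = c h)
    (h3 : ∀ w ∈ VV, act π c w ∈ VV) : IsAut π c := fun w =>
  ⟨h3 w, fun hw => by
    have := h3 _ hw
    rwa [show act π c (act π c w) = w from funext fun h => by simp [act, h1, h2]] at this⟩

def lift (b : Bool) (f : List G → List G) (hf : Function.Involutive f) : W ≃ W :=
  Function.Involutive.toPerm (fun h => (h.1, if h.1 = b then f h.2.1 else h.2.1, h.2.2))
    (fun h => by by_cases e : h.1 = b <;> simp [e, hf h.2.1]; rw [← e])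

lemma lift_apply (b : Bool) (f : List G → List G) (hf : Function.Involutive f) (h : W) :
    lift b f hf h = (h.1, if h.1 = b then f h.2.1 else h.2.1, h.2.2) := rfl

lemma lift_lift (b : Bool) (f : List G → List G) (hf : Function.Involutive f) (h : W) :
    lift b f hf (lift b f hf h) = h := by
  by_cases e : h.1 = b <;> simp [lift_apply, e, hf h.2.1]; rw [← e]

lemma act_fin (π : W ≃ W) (c w : W → Bool) (hc : {h | c h = true}.Finite)
    (hw : {h | w h = true}.Finite) : {h | act π c w h = true}.Finite := by
  refine (hc.union (hw.preimage π.injective.injOn)).subset fun h hh => ?_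
  simp only [act, mem_setOf_eq, mem_union, mem_preimage] at hh ⊢
  revert hh; cases c h <;> simp

def addA (a : G) : List G → List G
  | [] => []
  | g :: r => (fun i => xor (g i) (a i)) :: r

lemma addA_inv (a : G) : Function.Involutive (addA a) := by
  rintro (_ | ⟨g, r⟩) <;> simp [addA]

def cA (b : Bool) (a : G) : W → Bool := fun h => decide (h.1 = b ∧ h.2.1 = []) && a h.2.2

lemma autA (b : Bool) (a : G) : IsAut (lift b _ (addA_inv a)) (cA b a) := by
  refine aut_of (lift_lift _ _ _) ?_ fun w hw => ⟨act_fin _ _ _ ?_ hw.1, fun b' l g i h => ?_⟩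
  · rintro ⟨b', _ | ⟨g, r⟩, i⟩ <;> by_cases e : b' = b <;> simp [cA, lift_apply, e, addA]
  · refine (fin_len 0).subset fun h hh => ?_
    simp only [cA, mem_setOf_eq, Bool.and_eq_true, decide_eq_true_eq] at hh ⊢
    simp [hh.1.2]
  · by_cases e : b' = b
    · subst e
      rcases l with _ | ⟨g', r⟩
      · simp only [act, cA, lift_apply, addA, if_true, List.nil_append] at h ⊢
        have := hw.2 b' [] (fun i => xor (g i) (a i)) i (by simpa using h)
        refine ⟨fun j => ?_, by simp⟩
        simp only [this.1 j]; cases g j <;> cases a j <;> simp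
      · simp only [act, cA, lift_apply, addA, if_true, List.cons_append] at h ⊢
        have := hw.2 b' ((fun i => xor (g' i) (a i)) :: r) g i (by simpa using h)
        exact ⟨fun j => by simpa using this.1 j, by simpa using this.2⟩
    · simp only [act, cA, lift_apply, e, if_false] at h ⊢
      have := hw.2 b' l g i (by simpa using h)
      exact ⟨fun j => by simpa using this.1 j, this.2⟩

def tau : List G → List G
  | [] => [z]
  | g :: r => if g = z then (if r.head? = some z then g :: r else r) else z :: g :: r

lemma tau_inv : Function.Involutive tau := by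
  rintro (_ | ⟨g, _ | ⟨g', r⟩⟩)
  · simp [tau]
  · by_cases e : g = z <;> simp [tau, e]
  · by_cases e : g = z <;> by_cases e' : g' = z <;> simp [tau, e, e']

lemma autT (b : Bool) : IsAut (lift b _ tau_inv) (fun _ => false) := by
  refine aut_of (lift_lift _ _ _) (fun _ => rfl) fun w hw =>
    ⟨act_fin _ _ _ (by simp) hw.1, fun b' l g i h => ?_⟩
  by_cases e : b' = b
  · subst e
    simp only [act, lift_apply, if_true, Bool.false_xor] at h ⊢
    rcases l with _ | ⟨g', _ | ⟨g'', r⟩⟩
    · by_cases e : g = z
      · subst e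
        simp only [tau, List.nil_append, if_true] at h ⊢
        refine ⟨fun j => ?_, by simp⟩
        by_contra hc
        have := (hw.2 b' [] z j (by simpa [z] using hc)).1 i
        simp [z] at this h; simp [this] at h
      · have := hw.2 b' [z] g i (by simpa [tau, e] using h)
        exact ⟨fun j => by simpa [tau] using this.1 j, by simp⟩
    · by_cases e' : g' = z
      · by_cases e : g = z
        · have := (hw.2 b' [z] z i (by simpa [tau, e, e'] using h)).2
          simp at this
        · have := hw.2 b' [] g i (by simpa [tau, e, e'] using h)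
          exact ⟨fun j => by simpa [tau, e'] using this.1 j, Or.inl e⟩
      · have := hw.2 b' [z, g'] g i (by simpa [tau, e'] using h)
        exact ⟨fun j => by simpa [tau, e'] using this.1 j, by simpa using this.2⟩
    · by_cases e' : g' = z
      · by_cases e'' : g'' = z
        · have := hw.2 b' (z :: z :: r) g i (by simpa [tau, e', e''] using h)
          exact ⟨fun j => by simpa [tau, e', e''] using this.1 j, by simpa using this.2⟩
        · have := hw.2 b' (g'' :: r) g i (by simpa [tau, e', e''] using h)
          exact ⟨fun j => by simpa [tau, e', e''] using this.1 j, by simpa using this.2⟩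
      · have := hw.2 b' (z :: g' :: g'' :: r) g i (by simpa [tau, e'] using h)
        exact ⟨fun j => by simpa [tau, e'] using this.1 j, by simpa using this.2⟩
  · simp only [act, lift_apply, e, if_false, Bool.false_xor] at h ⊢
    exact hw.2 b' l g i h

lemma stepA {v : W → Bool} (hv : v ∈ VV) {b : Bool} {i : Fin 16} (h : v (b, [], i) = true) :
    ∃ π c, IsAut π c ∧ {h | act π c v h = true}.ncard < {h | v h = true}.ncard := by
  refine ⟨_, _, autA b (fun j => v (b, [], j)), lt_of_le_of_lt ?_
    (ncard_diff_singleton_lt_of_mem (show (b, [], i) ∈ {h | v h = true} from h) hv.1)⟩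
  refine ncard_le_ncard_of_injOn (lift b _ (addA_inv fun j => v (b, [], j))) ?_
    (Equiv.injective _).injOn hv.1.diff
  rintro ⟨b', _ | ⟨g, r⟩, j⟩ <;> by_cases e : b' = b <;> simp [act, cA, lift_apply, e, addA]

lemma trans_zero (n : ℕ) : ∀ v ∈ VV, {h | v h = true}.ncard = n →
    ∃ π c, IsAut π c ∧ act π c v = fun _ => false := by
  induction n using Nat.strong_induction_on with
  | _ n ih =>
  intro v hv hn
  by_cases he : {h | v h = true}.Nonempty
  · obtain ⟨⟨b, l, i⟩, hh, hmin⟩ := exists_min_image _ (fun h : W => h.2.1.length) hv.1 he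
    have hh : v (b, l, i) = true := hh
    have key : ∃ π c, IsAut π c ∧ {h | act π c v h = true}.ncard < n := by
      rcases List.eq_nil_or_concat l with rfl | ⟨l', g, rfl⟩
      · exact hn ▸ stepA hv hh
      · rw [List.concat_eq_append] at *
        obtain ⟨h3, h4⟩ := hv.2 b l' g i hh
        have hg : g = z := by
          by_contra hc
          obtain ⟨j, hj⟩ := ne_z hc
          have := hmin (b, l', j) (show v _ = true by rw [h3, hj])
          simp at this
        subst hg
        obtain rfl : l' = [] := by simpa using h4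
        obtain ⟨π, c, ha, hlt⟩ := stepA ((autT b v).1 hv) (b := b) (i := i)
          (by simpa [act, lift_apply, tau] using hh)
        refine ⟨_, _, (autT b).comp ha, ?_⟩
        rw [act_act] at hlt
        refine hlt.trans_le (hn ▸ ncard_le_ncard_of_injOn (lift b _ tau_inv) ?_
          (Equiv.injective _).injOn hv.1)
        intro h; simp [act]
    obtain ⟨π, c, ha, hlt⟩ := key
    obtain ⟨π', c', ha', h0⟩ := ih _ hlt _ ((ha v).1 hv) rfl
    exact ⟨_, _, ha.comp ha', by rw [← act_act, h0]⟩
  · exact ⟨Equiv.refl _, fun _ => false, fun w => by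
      rw [show act (Equiv.refl W) (fun _ => false) w = w from funext fun h => by simp [act]],
      funext fun h => by
        by_contra hc; exact he ⟨h, by simpa [act] using hc⟩⟩

lemma cocompact : Cocompact VV :=
  ⟨locfin, {fun _ => false}, finite_singleton _, fun v hv => trans_zero _ v hv rfl⟩

end Pool.Agent.H.MP_67b01c_gt
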