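import Pool.Agent.H.MP_67b01c_gt.B

namespace Pool.Agent.H.MP_67b01c_gt
open Set Filter Topology

def L (γ : ℕ → G) (j : ℕ) : List G := (List.range j).map γ

@[simp] lemma L_len (γ : ℕ → G) (j : ℕ) : (L γ j).length = j := by simp [L]
lemma L_succ (γ : ℕ → G) (j : ℕ) : L γ (j + 1) = L γ j ++ [γ j] := by
  simp [L, List.range_succ]

noncomputable def cl (r : ℝ) : ℝ := max 0 (min 1 r)

lemma cl_mem (r : ℝ) : cl r ∈ Icc (0 : ℝ) 1 := ⟨le_max_left _ _, max_le zero_le_one (min_le_left _ _)⟩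
lemma cl_zero {r : ℝ} (h : r ≤ 0) : cl r = 0 := max_eq_left ((min_le_right _ _).trans h)
lemma cl_one {r : ℝ} (h : 1 ≤ r) : cl r = 1 := by simp [cl, min_eq_left h]
lemma cl_id {r : ℝ} (h : 0 ≤ r) (h' : r ≤ 1) : cl r = r := by simp [cl, min_eq_right h', h]
lemma cl_lip (r s : ℝ) : |cl r - cl s| ≤ |r - s| := by
  refine (abs_max_sub_max_le_max _ _ _ _).trans ?_
  simp only [sub_self, abs_zero, abs_nonneg, max_eq_right]
  refine (abs_min_sub_min_le_max _ _ _ _).trans ?_
  simp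

def sp (g : G) : Finset (Fin 16) := Finset.univ.filter fun i => g i = true

def Good (n : ℕ) (γ : Bool → ℕ → G) (len : Bool → ℕ → ℕ) : Prop :=
  ∀ b j, 0 < len b j ∧ (sp (γ b j)).card = len b j ^ n

def Lam (len : ℕ → ℕ) (j : ℕ) : ℕ := ∑ k ∈ Finset.range j, len k

lemma Lam_succ (len : ℕ → ℕ) (j : ℕ) : Lam len (j + 1) = Lam len j + len j :=
  Finset.sum_range_succ _ _
lemma Lam_mono (len : ℕ → ℕ) : Monotone (Lam len) :=
  monotone_nat_of_le_succ fun j => by rw [Lam_succ]; omega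
lemma le_Lam {len : ℕ → ℕ} (h : ∀ j, 0 < len j) (j : ℕ) : j ≤ Lam len j := by
  induction j with
  | zero => simp
  | succ j ih => rw [Lam_succ]; have := h j; omega

def OnP (γ : Bool → ℕ → G) (h : W) : Prop :=
  h.2.1 = L (γ h.1) h.2.1.length ∧ γ h.1 h.2.1.length h.2.2 = true

open Classical in
noncomputable def Qf (γ : Bool → ℕ → G) (len : Bool → ℕ → ℕ) (a : Bool → ℝ) : W → ℝ := fun h =>
  if OnP γ h then cl ((a h.1 - Lam (len h.1) h.2.1.length) / len h.1 h.2.1.length) else 0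

open Classical in
noncomputable def vJ (γ : Bool → ℕ → G) (J : Bool → ℕ) : W → Bool :=
  fun h => decide (OnP γ h ∧ h.2.1.length < J h.1)

def SJ (γ : Bool → ℕ → G) (J : Bool → ℕ) : Finset W :=
  Finset.univ.biUnion fun b => (sp (γ b (J b))).image fun i => (b, L (γ b) (J b), i)

lemma mem_SJ {γ : Bool → ℕ → G} {J : Bool → ℕ} {h : W} :
    h ∈ SJ γ J ↔ OnP γ h ∧ h.2.1.length = J h.1 := by
  obtain ⟨b, l, i⟩ := h
  simp only [SJ, Finset.mem_biUnion, Finset.mem_univ, true_and, Finset.mem_image, sp,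
    Finset.mem_filter, Prod.mk.injEq, OnP]
  constructor
  · rintro ⟨b, i, h, rfl, rfl, rfl⟩; simp [h]
  · rintro ⟨⟨h1, h2⟩, h3⟩
    exact ⟨b, i, h3 ▸ h2, rfl, by rw [← h3, ← h1], rfl⟩

variable {n : ℕ} {γ : Bool → ℕ → G} {len : Bool → ℕ → ℕ}

lemma Good.ex (hg : Good n γ len) (b j) : ∃ i, γ b j i = true := by
  have : 0 < (sp (γ b j)).card := by rw [(hg b j).2]; exact pow_pos (hg b j).1 _
  obtain ⟨i, hi⟩ := Finset.card_pos.1 this
  exact ⟨i, by simpa [sp] using hi⟩

def Cell (len : Bool → ℕ → ℕ) (J : Bool → ℕ) (a : Bool → ℝ) : Prop :=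
  ∀ b k, (k < J b → (Lam (len b) (k + 1) : ℝ) ≤ a b) ∧ (J b < k → a b ≤ Lam (len b) k)

lemma inCube_Q (hg : Good n γ len) {J : Bool → ℕ} {a : Bool → ℝ} (hc : Cell len J a) :
    InCube VV (vJ γ J) (SJ γ J) (Qf γ len a) := by
  refine ⟨fun w hw => ?_, fun h _ => ?_, fun h hh => ?_⟩
  · have hs : ∀ h, w h = true → OnP γ h ∧ h.2.1.length ≤ J h.1 := fun h hh => by
      by_cases e : h ∈ SJ γ J
      · exact ⟨(mem_SJ.1 e).1, (mem_SJ.1 e).2.le⟩
      · rw [hw h e] at hh
        simp only [vJ, decide_eq_true_eq] at hh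
        exact ⟨hh.1, hh.2.le⟩
    refine ⟨(fin_len (J true + J false)).subset fun h hh => ?_, fun b l g i hh => ?_⟩
    · have := (hs h hh).2
      obtain ⟨_ | _, l, i⟩ := h <;> simp at this ⊢ <;> omega
    · obtain ⟨⟨h1, -⟩, h2⟩ := hs _ hh
      simp only [List.length_append, List.length_singleton, L_succ] at h1 h2
      obtain ⟨h3, h4⟩ := List.append_inj' h1 rfl
      obtain rfl : g = γ b l.length := by simpa using h4
      refine ⟨fun j => ?_, Or.inl fun e => ?_⟩
      · rw [hw _ (fun e => by have := (mem_SJ.1 e).2; simp only at this; omega)]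
        have : l.length < J b := h2
        simp only [vJ, OnP, ← h3, this]
        simp
      · obtain ⟨i, hi⟩ := hg.ex b l.length
        simp [e, z] at hi
  · simp only [Qf]; split_ifs
    exacts [cl_mem _, by simp]
  · have hl : (0 : ℝ) < len h.1 h.2.1.length := by exact_mod_cast (hg _ _).1
    by_cases e : OnP γ h
    · have : h.2.1.length ≠ J h.1 := fun e' => hh (mem_SJ.2 ⟨e, e'⟩)
      simp only [Qf, vJ, e, if_true, true_and, decide_eq_true_eq]
      split_ifs with e'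
      · have := (hc h.1 _).1 e'
        rw [Lam_succ] at this; push_cast at this
        exact cl_one ((one_le_div hl).2 (by linarith))
      · have := (hc h.1 h.2.1.length).2 (by omega)
        exact cl_zero (div_nonpos_of_nonpos_of_nonneg (by linarith) hl.le)
    · simp [Qf, vJ, e]

def NoInt (r r' : ℝ) : Prop := ∀ k : ℤ, min r r' < k → max r r' ≤ k

lemma cell_ex (hg : Good n γ len) {a a' : Bool → ℝ} (h : ∀ b, NoInt (a b) (a' b)) :
    ∃ J, Cell len J a ∧ Cell len J a' := by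
  have ex : ∀ b, ∃ j, min (a b) (a' b) < Lam (len b) (j + 1) := fun b => by
    obtain ⟨j, hj⟩ := exists_nat_gt (min (a b) (a' b))
    refine ⟨j, hj.trans_le ?_⟩
    exact_mod_cast (Nat.le_succ j).trans (le_Lam (fun j => (hg b j).1) _)
  classical
  have key : ∀ b k, (k < Nat.find (ex b) → (Lam (len b) (k + 1) : ℝ) ≤ min (a b) (a' b)) ∧
      (Nat.find (ex b) < k → max (a b) (a' b) ≤ Lam (len b) k) := fun b k =>
    ⟨fun hk => not_lt.1 (Nat.find_min (ex b) hk), fun hk => by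
      have h1 := Nat.find_spec (ex b)
      have h2 : (Lam (len b) (Nat.find (ex b) + 1) : ℝ) ≤ Lam (len b) k := by
        exact_mod_cast Lam_mono _ hk
      simpa using h b (Lam (len b) k) (by simpa using h1.trans_le h2)⟩
  exact ⟨fun b => Nat.find (ex b),
    fun b k => ⟨fun hk => ((key b k).1 hk).trans (min_le_left _ _),
      fun hk => (le_max_left _ _).trans ((key b k).2 hk)⟩,
    fun b k => ⟨fun hk => ((key b k).1 hk).trans (min_le_right _ _),
      fun hk => (le_max_right _ _).trans ((key b k).2 hk)⟩⟩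

noncomputable def Q (hg : Good n γ len) (a : Bool → ℝ) : Pt VV :=
  ⟨Qf γ len a, by
    obtain ⟨J, hJ, -⟩ := cell_ex hg (a := a) (a' := a) fun b k hk => by simpa using le_of_lt (by simpa using hk)
    exact ⟨_, _, inCube_Q hg hJ⟩⟩

noncomputable def nrm {ι : Type} [Fintype ι] (n : ℕ) (a : ι → ℝ) : ℝ :=
  (∑ b, |a b| ^ (n : ℝ)) ^ (1 / (n : ℝ))

lemma nrm_nonneg {ι : Type} [Fintype ι] (a : ι → ℝ) : 0 ≤ nrm n a := by unfold nrm; positivity

lemma nrm_pow {ι : Type} [Fintype ι] (hn : n ≠ 0) (a : ι → ℝ) : nrm n a ^ n = ∑ b, |a b| ^ n := by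
  unfold nrm
  rw [one_div, Real.rpow_inv_natCast_pow (by positivity) hn]
  simp

lemma nrm_smul {ι : Type} [Fintype ι] (hn : n ≠ 0) (c : ℝ) (a : ι → ℝ) :
    nrm n (c • a) = |c| * nrm n a := by
  refine (pow_left_inj₀ (nrm_nonneg _) (mul_nonneg (abs_nonneg _) (nrm_nonneg _)) hn).1 ?_
  simp [mul_pow, nrm_pow hn, abs_mul, Finset.mul_sum]

lemma le_nrm {ι : Type} [Fintype ι] (hn : n ≠ 0) (a : ι → ℝ) (b : ι) : |a b| ≤ nrm n a := by
  refine (pow_le_pow_iff_left₀ (abs_nonneg _) (nrm_nonneg _) hn).1 ?_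
  rw [nrm_pow hn]
  exact Finset.single_le_sum (f := fun b => |a b| ^ n) (fun _ _ => by positivity) (Finset.mem_univ b)

lemma step_Q (hn : n ≠ 0) (hg : Good n γ len) {a a' : Bool → ℝ} (h : ∀ b, NoInt (a b) (a' b)) :
    dp VV n (Q hg a) (Q hg a') ≤ nrm n (a - a') := by
  obtain ⟨J, h1, h2⟩ := cell_ex hg h
  refine (Step.chain (x := Q hg a) (y := Q hg a')
    ⟨_, _, inCube_Q hg h1, inCube_Q hg h2, rfl⟩).dp_le.trans ?_
  refine Real.rpow_le_rpow (by positivity) ?_ (by positivity)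
  rw [SJ, Finset.sum_biUnion]
  · refine Finset.sum_le_sum fun b _ => ?_
    rw [Finset.sum_image (fun i _ j _ e => by simpa using e)]
    have hl : (0 : ℝ) < len b (J b) := by exact_mod_cast (hg _ _).1
    refine (Finset.sum_le_card_nsmul _ _ ((|a b - a' b| / len b (J b)) ^ n) fun i hi => ?_).trans ?_
    · have : OnP γ (b, L (γ b) (J b), i) := ⟨by simp, by simpa [sp] using hi⟩
      simp only [Q, Qf, this, if_true, L_len, Real.rpow_natCast]
      refine pow_le_pow_left₀ (abs_nonneg _) ((cl_lip _ _).trans (le_of_eq ?_)) _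
      rw [← sub_div, abs_div, abs_of_pos hl]; congr 2; ring
    · rw [(hg b _).2, nsmul_eq_mul, div_pow]; push_cast
      rw [mul_div_cancel₀ _ (by positivity)]; simp
  · intro b _ b' _ e
    simp only [Finset.disjoint_left, Finset.mem_image]
    rintro _ ⟨i, -, rfl⟩ ⟨j, -, h⟩
    exact e (by simpa using (congrArg Prod.fst h).symm)

lemma noInt_ev (r0 : ℝ) : ∀ᶠ r in 𝓝 r0, NoInt r0 r := by
  have h1 : ∀ᶠ r in 𝓝 r0, (⌈r0⌉ : ℝ) - 1 < r := lt_mem_nhds (by linarith [Int.ceil_lt_add_one r0])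
  have h2 : ∀ᶠ r in 𝓝 r0, r < (⌊r0⌋ : ℝ) + 1 := gt_mem_nhds (Int.lt_floor_add_one r0)
  filter_upwards [h1, h2] with r h1 h2 k hk
  rcases le_total r0 r with e | e
  · rw [min_eq_left e] at hk; rw [max_eq_right e]
    have : ⌊r0⌋ + 1 ≤ k := Int.floor_lt.2 hk
    have : (⌊r0⌋ : ℝ) + 1 ≤ k := by exact_mod_cast this
    linarith
  · rw [min_eq_right e] at hk; rw [max_eq_left e]
    have : ⌈r0⌉ - 1 < k := by exact_mod_cast h1.trans hk
    exact Int.ceil_le.1 (by omega)

lemma dp_Q_le (hn : n ≠ 0) (hg : Good n γ len) (a : Bool → ℝ) :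
    dp VV n (Q hg 0) (Q hg a) ≤ nrm n a := by
  letI := met (p := n) isCAT0 (by exact_mod_cast Nat.one_le_iff_ne_zero.2 hn)
  have loc : ∀ t0 : ℝ, ∀ᶠ t in 𝓝 t0, dist (Q hg (t0 • a)) (Q hg (t • a)) ≤ |t0 - t| * nrm n a := by
    intro t0
    have : ∀ b, ∀ᶠ t in 𝓝 t0, NoInt (t0 * a b) (t * a b) := fun b =>
      ((continuous_id.mul continuous_const).tendsto t0).eventually (noInt_ev _)
    filter_upwards [eventually_all.2 this] with t ht
    rw [← nrm_smul hn, sub_smul]
    exact step_Q hn hg ht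
  have cont : Continuous fun t : ℝ => Q hg (t • a) := by
    refine continuous_iff_continuousAt.2 fun t0 => tendsto_iff_dist_tendsto_zero.2 ?_
    refine squeeze_zero' (Eventually.of_forall fun _ => dist_nonneg)
      ((loc t0).mono fun t ht => (dist_comm _ _).trans_le ht) ?_
    have : Continuous fun t : ℝ => |t0 - t| * nrm n a := by fun_prop
    simpa using this.tendsto t0
  have := IsClosed.mem_of_ge_of_forall_exists_gt (a := (0 : ℝ)) (b := 1)
    (s := {t : ℝ | dist (Q hg 0) (Q hg (t • a)) ≤ t * nrm n a})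
    ((isClosed_le (continuous_const.dist cont) (by fun_prop)).inter isClosed_Icc)
    (by simp) zero_le_one fun t ht => by
      have h1 : ∀ᶠ u in 𝓝[>] t, u ∈ Ioc t 1 := Ioc_mem_nhdsGT ht.2.2
      obtain ⟨u, hu, hu'⟩ := (h1.and ((loc t).filter_mono nhdsWithin_le_nhds)).exists
      refine ⟨u, (dist_triangle _ _ _).trans ((add_le_add ht.1 hu').trans (le_of_eq ?_)), hu⟩
      rw [abs_of_neg (by linarith [hu.1])]; ring
  have this : dist (Q hg 0) (Q hg a) ≤ nrm n a := by simpa using this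
  exact this

end Pool.Agent.H.MP_67b01c_gt
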