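import Pool.Agent.H.MP_67b01c_gt.C

namespace Pool.Agent.H.MP_67b01c_gt
open Set Filter Topology

variable {n : ℕ} {γ : Bool → ℕ → G} {len : Bool → ℕ → ℕ}

lemma cube_act {v : W → Bool} {S : Finset W}
    (hc : ∀ w : W → Bool, (∀ h ∉ S, w h = v h) → w ∈ VV) {b l g i}
    (h : (b, l ++ [g], i) ∈ S ∨ v (b, l ++ [g], i) = true) (j) :
    (b, l, j) ∉ S ∧ v (b, l, j) = g j := by
  have ne : (b, l, j) ≠ (b, l ++ [g], i) := by simp
  have a1 : ∀ k ∉ S, Function.update v (b, l ++ [g], i) true k = v k := fun k hk => by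
    by_cases e : k = (b, l ++ [g], i)
    · subst e; simp [h.resolve_left hk]
    · simp [e]
  refine ⟨fun hS => ?_, ?_⟩
  · have := ((hc (Function.update (Function.update v (b, l ++ [g], i) true) (b, l, j) (!g j))
      fun k hk => by
        rw [Function.update_of_ne (by rintro rfl; exact hk hS)]; exact a1 k hk).2 b l g i
      (by rw [Function.update_of_ne ne.symm]; simp)).1 j
    simp at this
  · have := ((hc _ a1).2 b l g i (by simp)).1 j
    rwa [Function.update_of_ne ne] at this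

lemma cube_chain (hg : Good n γ len) {v : W → Bool} {S : Finset W}
    (hc : ∀ w : W → Bool, (∀ h ∉ S, w h = v h) → w ∈ VV) (b) (k : ℕ) :
    ∀ i, ((b, L (γ b) k, i) ∈ S ∨ v (b, L (γ b) k, i) = true) → ∀ j < k, ∀ i',
      (b, L (γ b) j, i') ∉ S ∧ v (b, L (γ b) j, i') = γ b j i' := by
  induction k with
  | zero => simp
  | succ k ih =>
    intro i h j hj i'
    rw [L_succ] at h
    rcases Nat.lt_succ_iff_lt_or_eq.1 hj with hj | rfl
    · obtain ⟨i0, h0⟩ := hg.ex b k
      exact ih i0 (Or.inr (by rw [(cube_act hc h i0).2, h0])) j hj i'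
    · exact cube_act hc h i'

lemma Pt.mem (x : Pt VV) (h : W) : x.1 h ∈ Icc (0 : ℝ) 1 := by
  obtain ⟨v, S, -, h1, h2⟩ := x.2
  by_cases e : h ∈ S
  · exact h1 h e
  · rw [h2 h e]; split_ifs <;> simp

lemma stair (hg : Good n γ len) (x : Pt VV) {b k i} (h : x.1 (b, L (γ b) k, i) ≠ 0) {j}
    (hj : j < k) {i'} (hi : γ b j i' = true) : x.1 (b, L (γ b) j, i') = 1 := by
  obtain ⟨v, S, hc, h1, h2⟩ := x.2
  have := cube_chain hg hc b k i (by
    by_contra hn; push Not at hn
    exact h (by rw [h2 _ hn.1]; simp [hn.2])) j hj i'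
  rw [h2 _ this.1, this.2, hi]; simp

noncomputable def uu (n : ℕ) (γ : Bool → ℕ → G) (len : Bool → ℕ → ℕ) (x : W → ℝ) (b : Bool)
    (j : ℕ) : ℝ :=
  (len b j : ℝ) / len b j ^ n * ∑ i ∈ sp (γ b j), x (b, L (γ b) j, i)

open Classical in
noncomputable def Psi (n : ℕ) (γ : Bool → ℕ → G) (len : Bool → ℕ → ℕ) (m : ℕ) (h0 : W)
    (x : W → ℝ) : Option Bool → ℝ
  | none => if OnP γ h0 ∧ h0.2.1.length < m then 0 else x h0
  | some b => ∑ j ∈ Finset.range m, uu n γ len x b j

lemma Psi_sub (m h0) (x y : W → ℝ) :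
    Psi n γ len m h0 x - Psi n γ len m h0 y = Psi n γ len m h0 (x - y) := by
  funext o; rcases o with _ | b
  · simp only [Psi, Pi.sub_apply]; split_ifs <;> simp
  · simp only [Psi, uu, Pi.sub_apply, Finset.sum_sub_distrib, mul_sub]

lemma uu_pow (hn : n ≠ 0) (hg : Good n γ len) (d : W → ℝ) (b j) :
    |uu n γ len d b j| ^ n ≤ ∑ i ∈ sp (γ b j), |d (b, L (γ b) j, i)| ^ n := by
  obtain ⟨k, rfl⟩ := Nat.exists_eq_succ_of_ne_zero hn
  have hl : (0 : ℝ) < len b j := by exact_mod_cast (hg _ _).1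
  have h1 := pow_sum_le_card_mul_sum_pow (s := sp (γ b j)) (f := fun i => |d (b, L (γ b) j, i)|)
    (fun _ _ => abs_nonneg _) k
  rw [(hg b j).2] at h1; push_cast at h1
  rw [uu, abs_mul, mul_pow, abs_of_pos (by positivity)]
  refine (mul_le_mul_of_nonneg_left ((pow_le_pow_left₀ (abs_nonneg _)
    (Finset.abs_sum_le_sum_abs _ _) _).trans h1) (by positivity)).trans (le_of_eq ?_)
  rw [← mul_assoc, div_pow, ← pow_mul, ← pow_mul, div_mul_eq_mul_div, ← pow_add,
    show k.succ + k.succ * k = k.succ * k.succ by simp [Nat.mul_succ]; ring,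
    div_self (by positivity), one_mul]

lemma Psi_step (hn : n ≠ 0) (hg : Good n γ len) (m h0) {x y : Pt VV} {c : ℝ}
    (h : Step VV n x y c) : nrm n (Psi n γ len m h0 x.1 - Psi n γ len m h0 y.1) ≤ c := by
  classical
  obtain ⟨v, S, hx, hy, rfl⟩ := h
  refine Real.rpow_le_rpow (by positivity) ?_ (by positivity)
  rw [Psi_sub]
  set d : W → ℝ := x.1 - y.1 with hd
  have d0 : ∀ h ∉ S, d h = 0 := fun h hh => by simp [hd, hx.2.2 h hh, hy.2.2 h hh]
  simp only [Real.rpow_natCast]
  change _ ≤ ∑ h ∈ S, |d h| ^ n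
  let cls : W → Option Bool := fun h => if OnP γ h ∧ h.2.1.length < m then some h.1 else none
  rw [← Finset.sum_fiberwise (s := S) (g := cls)]
  refine Finset.sum_le_sum fun o _ => ?_
  have pos : ∀ T : Finset W, 0 ≤ ∑ h ∈ T, |d h| ^ n := fun T => by positivity
  rcases o with _ | b
  · simp only [Psi]
    split_ifs with e
    · simpa [hn] using pos _
    · by_cases e' : h0 ∈ S
      · exact Finset.single_le_sum (f := fun h => |d h| ^ n) (fun _ _ => by positivity)
          (by simp only [Finset.mem_filter, cls, e, if_false, e', and_self])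
      · simpa [d0 h0 e', hn] using pos _
  · simp only [Psi]
    by_cases e : ∃ j < m, ∃ i, (b, L (γ b) j, i) ∈ S
    · obtain ⟨j, hj, i, hi⟩ := e
      rw [Finset.sum_eq_single j]
      · refine (uu_pow hn hg d b j).trans ?_
        rw [← Finset.sum_image (s := sp (γ b j)) (g := fun i => ((b, L (γ b) j, i) : W))
          (f := fun h => |d h| ^ n) (fun i _ j _ e => by simpa using e)]
        rw [← Finset.sum_filter_add_sum_filter_not _ (· ∈ S),
          Finset.sum_eq_zero (s := Finset.filter (fun h => ¬ h ∈ S) _)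
            (fun h hh => by simp [d0 h (Finset.mem_filter.1 hh).2, hn]), add_zero]
        refine Finset.sum_le_sum_of_subset_of_nonneg (fun h hh => ?_) fun _ _ _ => by positivity
        simp only [Finset.mem_filter, Finset.mem_image] at hh ⊢
        obtain ⟨⟨i, hi, rfl⟩, hS⟩ := hh
        have : OnP γ (b, L (γ b) j, i) := ⟨by simp, by simpa [sp] using hi⟩
        simp [hS, cls, this, hj]
      · intro k _ hk
        refine mul_eq_zero_of_right _ (Finset.sum_eq_zero fun i' _ => d0 _ fun hS => ?_)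
        rcases lt_or_gt_of_ne hk with hk | hk
        · exact (cube_chain hg hx.1 b j i (Or.inl hi) k hk i').1 hS
        · exact (cube_chain hg hx.1 b k i' (Or.inl hS) j hk i).1 hi
      · simp [hj]
    · push Not at e
      rw [Finset.sum_eq_zero (f := fun j => uu n γ len d b j) fun j hj => mul_eq_zero_of_right _
        (Finset.sum_eq_zero fun i _ => d0 _ (e j (Finset.mem_range.1 hj) i))]
      simpa [hn] using pos _

lemma Psi_lip (hn : n ≠ 0) (hg : Good n γ len) (m h0) (x y : Pt VV) :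
    nrm n (Psi n γ len m h0 x.1 - Psi n γ len m h0 y.1) ≤ dp VV n x y := by
  refine le_dp isCAT0 (fun x y => nrm n (Psi n γ len m h0 x.1 - Psi n γ len m h0 y.1))
    (fun x => ?_) (fun x y w => ?_) (fun x y c h => Psi_step hn hg m h0 h) x y
  · simp [nrm, hn]
  · have := Real.Lp_add_le Finset.univ (Psi n γ len m h0 x.1 - Psi n γ len m h0 y.1)
      (Psi n γ len m h0 y.1 - Psi n γ len m h0 w.1) (p := n)
      (by exact_mod_cast Nat.one_le_iff_ne_zero.2 hn)
    simpa [nrm] using this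

lemma strict {ι : Type} [Fintype ι] (hn : n ≠ 0) (he : Even n) {u v : ι → ℝ} {s : ℝ}
    (hs : s ∈ Icc (0 : ℝ) 1) (h1 : nrm n u ≤ s * nrm n v) (h2 : nrm n (v - u) ≤ (1 - s) * nrm n v) :
    u = s • v := by
  rcases hs.1.eq_or_lt with rfl | s0
  · funext i
    simpa using (le_nrm hn u i).trans h1
  rcases hs.2.eq_or_lt with rfl | s1
  · funext i
    have := (le_nrm hn (v - u) i).trans h2
    simp only [sub_self, zero_mul, abs_nonpos_iff, Pi.sub_apply] at this
    simp; linarith
  by_contra hne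
  obtain ⟨i, hi⟩ := Function.ne_iff.1 hne
  have s1' : 0 < 1 - s := by linarith
  have pw : ∀ w : ι → ℝ, ∑ i, w i ^ n = nrm n w ^ n := fun w => by
    simp [nrm_pow hn, he.pow_abs]
  have hA : nrm n (s⁻¹ • u) ^ n ≤ nrm n v ^ n := by
    refine pow_le_pow_left₀ (nrm_nonneg _) ?_ _
    rw [nrm_smul hn, abs_of_pos (inv_pos.2 s0), inv_mul_le_iff₀ s0]; exact h1
  have hB : nrm n ((1 - s)⁻¹ • (v - u)) ^ n ≤ nrm n v ^ n := by
    refine pow_le_pow_left₀ (nrm_nonneg _) ?_ _
    rw [nrm_smul hn, abs_of_pos (inv_pos.2 s1'), inv_mul_le_iff₀ s1']; exact h2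
  have cv := he.strictConvexOn_pow hn
  have e : ∀ j, v j = s • (s⁻¹ • u) j + (1 - s) • ((1 - s)⁻¹ • (v - u)) j := fun j => by
    simp only [Pi.smul_apply, smul_eq_mul, Pi.sub_apply]; field_simp; ring
  have : ∑ j, v j ^ n < ∑ j, (s * (s⁻¹ • u) j ^ n + (1 - s) * ((1 - s)⁻¹ • (v - u)) j ^ n) := by
    refine Finset.sum_lt_sum (fun j _ => ?_) ⟨i, Finset.mem_univ _, ?_⟩
    · rw [e j]; exact cv.convexOn.2 trivial trivial s0.le s1'.le (by ring)
    · rw [e i]
      refine cv.2 trivial trivial (fun h => hi ?_) s0 s1' (by ring)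
      simp only [Pi.smul_apply, smul_eq_mul, Pi.sub_apply] at h ⊢
      field_simp at h; linarith
  rw [Finset.sum_add_distrib, ← Finset.mul_sum, ← Finset.mul_sum, pw, pw, pw] at this
  nlinarith

lemma sum_cl {l : ℕ → ℕ} (hl : ∀ j, 0 < l j) {r : ℝ} (hr : 0 ≤ r) (m : ℕ) :
    ∑ j ∈ Finset.range m, (l j : ℝ) * cl ((r - Lam l j) / l j) = min (Lam l m : ℝ) r := by
  induction m with
  | zero => simp [Lam, hr]
  | succ m ih =>
    have h : (0 : ℝ) < l m := by exact_mod_cast hl m
    rw [Finset.sum_range_succ, ih, Lam_succ]; push_cast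
    rcases le_total r (Lam l m) with e | e
    · rw [cl_zero (div_nonpos_of_nonpos_of_nonneg (by linarith) h.le), min_eq_right e,
        min_eq_right (by linarith)]; ring
    rcases le_total r (Lam l m + l m) with e' | e'
    · rw [cl_id (div_nonneg (by linarith) h.le) ((div_le_one h).2 (by linarith)), min_eq_left e,
        min_eq_right e']; field_simp; ring
    · rw [cl_one ((one_le_div h).2 (by linarith)), min_eq_left e, min_eq_left e']; ring

lemma Psi_Q (hg : Good n γ len) {a : Bool → ℝ} (ha : ∀ b, 0 ≤ a b) {m : ℕ} (hm : ∀ b, a b ≤ m)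
    (h0 : W) : Psi n γ len m h0 (Qf γ len a) = fun o => o.elim 0 a := by
  have hm' : ∀ b k, m ≤ k → a b ≤ Lam (len b) k := fun b k hk => (hm b).trans (by
    exact_mod_cast hk.trans (le_Lam (fun j => (hg b j).1) k))
  funext o; rcases o with _ | b
  · simp only [Psi, Qf, Option.elim]
    split_ifs with e e'
    · rfl
    · exact cl_zero (div_nonpos_of_nonpos_of_nonneg
        (sub_nonpos.2 (hm' _ _ (by simpa [e'] using e))) (by positivity))
    · rfl
  · simp only [Psi, Option.elim]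
    rw [← min_eq_right (hm' b m le_rfl), ← sum_cl (fun j => (hg b j).1) (ha b)]
    refine Finset.sum_congr rfl fun j _ => ?_
    have hl : (0 : ℝ) < len b j := by exact_mod_cast (hg _ _).1
    rw [uu, Finset.sum_congr rfl (g := fun _ => cl ((a b - Lam (len b) j) / len b j)) fun i hi => by
      have : OnP γ (b, L (γ b) j, i) := ⟨by simp, by simpa [sp] using hi⟩
      simp [Qf, this], Finset.sum_const, (hg b j).2, nsmul_eq_mul]
    push_cast; field_simp

lemma nrm_elim (hn : n ≠ 0) (a : Bool → ℝ) : nrm n (fun o : Option Bool => o.elim 0 a) = nrm n a := by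
  simp [nrm, Fintype.sum_option, hn]

lemma dp_Q (hn : n ≠ 0) (hg : Good n γ len) {a : Bool → ℝ} (ha : ∀ b, 0 ≤ a b) :
    dp VV n (Q hg 0) (Q hg a) = nrm n a := by
  refine le_antisymm (dp_Q_le hn hg a) ?_
  obtain ⟨m, hm⟩ := exists_nat_ge (a true + a false)
  have hm' : ∀ b, a b ≤ m := by rintro (_ | _) <;> linarith [ha true, ha false]
  have := Psi_lip hn hg m (true, [], 0) (Q hg a) (Q hg 0)
  rw [show (Q hg a).1 = Qf γ len a from rfl, show (Q hg 0).1 = Qf γ len 0 from rfl,
    Psi_Q hg ha hm', Psi_Q hg (a := 0) (fun _ => le_rfl) (fun _ => by simp),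
    show ((fun o : Option Bool => o.elim 0 a) - fun o : Option Bool => o.elim (0 : ℝ) 0) =
      fun o : Option Bool => o.elim 0 a from funext fun o => by cases o <;> simp, nrm_elim hn] at this
  exact this.trans_eq ((met isCAT0 (by exact_mod_cast Nat.one_le_iff_ne_zero.2 hn)).dist_comm _ _)

end Pool.Agent.H.MP_67b01c_gt
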