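import Pool.Agent.H.MP_67b01c_gt.D

namespace Pool.Agent.H.MP_67b01c_gt
open Set Filter Topology NNReal

variable {n : ℕ} {γ : Bool → ℕ → G} {len : Bool → ℕ → ℕ}

def e0 : G := fun i => decide (i = 0)

lemma sp_e0 : sp e0 = {0} := by ext i; simp [sp, e0]

lemma goodE : Good 0 (fun _ _ => e0) (fun _ _ => 1) := fun _ _ => by simp [sp_e0]
lemma goodE' (n : ℕ) : Good n (fun _ _ => e0) (fun _ _ => 1) := fun _ _ => by simp [sp_e0]

noncomputable def QE (a : Bool → ℝ) : Pt VV := Q goodE a

noncomputable def oo : Pt VV := QE 0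

lemma Q_val (hg : Good n γ len) (a) : (Q hg a).1 = Qf γ len a := rfl
lemma QE_val (a) : (QE a).1 = Qf (fun _ _ => e0) (fun _ _ => 1) a := rfl

lemma Q_zero (hg : Good n γ len) : Q hg 0 = oo := by
  have : ∀ γ len, Qf γ len 0 = 0 := fun γ len => funext fun h => by
    simp only [Qf]; split_ifs
    · exact cl_zero (div_nonpos_of_nonpos_of_nonneg (by simp) (by positivity))
    · rfl
  refine Subtype.ext ?_
  rw [Q_val, oo, QE_val, this, this]

lemma L_congr {γ γ' : ℕ → G} {k : ℕ} (h : ∀ j < k, γ j = γ' j) : L γ k = L γ' k :=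
  List.map_congr_left fun j hj => h j (List.mem_range.1 hj)

lemma ident (hg : Good n γ len) {N m : ℕ} (hN : ∀ b, ∀ j < N, γ b j = e0 ∧ len b j = 1)
    (hm : N ≤ m) (x : Pt VV) {r : Bool → ℝ} (hr : ∀ b, r b ≤ N)
    (hF : ∀ b, ∑ j ∈ Finset.range m, uu n γ len x.1 b j = r b)
    (h0 : ∀ h, ¬ (OnP γ h ∧ h.2.1.length < m) → x.1 h = 0) : x = QE r := by
  refine Subtype.ext (funext fun ⟨b, l, i⟩ => ?_)
  have u0 : ∀ j, 0 ≤ uu n γ len x.1 b j := fun j =>
    mul_nonneg (by positivity) (Finset.sum_nonneg fun i _ => (x.mem _).1)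
  have u1 : ∀ j < N, uu n γ len x.1 b j = x.1 (b, L (γ b) j, 0) := fun j hj => by
    simp [uu, (hN b j hj).1, (hN b j hj).2, sp_e0]
  have g0 : ∀ j < N, γ b j 0 = true := fun j hj => by simp [(hN b j hj).1, e0]
  have lam : ∀ k, (Lam (fun _ => 1) k : ℝ) = k := fun k => by simp [Lam]
  rw [QE_val]
  set k := l.length with hk
  rcases lt_or_ge k N with kN | kN
  · have hL : L (γ b) k = L (fun _ => e0) k := L_congr fun j hj => (hN b j (hj.trans kN)).1
    have hP : OnP γ (b, l, i) ↔ OnP (fun _ _ => e0) (b, l, i) := by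
      simp only [OnP, ← hk, hL, (hN b k kN).1]
    by_cases e : OnP γ (b, l, i)
    · simp only [Qf, hP.1 e, if_true, ← hk, lam, Nat.cast_one, div_one]
      obtain ⟨e1, e2⟩ := e
      simp only [← hk, (hN b k kN).1, e0, decide_eq_true_eq] at e1 e2
      subst e2
      rw [e1]
      have hs := hF b
      rw [← Finset.sum_range_add_sum_Ico _ (show k + 1 ≤ m by omega), Finset.sum_range_succ,
        u1 k kN] at hs
      have A1 : ∑ j ∈ Finset.range k, uu n γ len x.1 b j ≤ k := by
        simpa using Finset.sum_le_card_nsmul (Finset.range k) (uu n γ len x.1 b) 1 fun j hj => by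
          rw [u1 j ((Finset.mem_range.1 hj).trans kN)]; exact (x.mem _).2
      have A2 : x.1 (b, L (γ b) k, 0) ≠ 0 → ∑ j ∈ Finset.range k, uu n γ len x.1 b j = k :=
        fun h => by
          rw [Finset.sum_congr rfl (g := fun _ => (1 : ℝ)) fun j hj => by
            have hj := Finset.mem_range.1 hj
            rw [u1 j (hj.trans kN), stair hg x h hj (g0 j (hj.trans kN))]]
          simp
      have B1 : 0 ≤ ∑ j ∈ Finset.Ico (k + 1) m, uu n γ len x.1 b j :=
        Finset.sum_nonneg fun j _ => u0 j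
      have B2 : x.1 (b, L (γ b) k, 0) ≠ 1 → ∑ j ∈ Finset.Ico (k + 1) m, uu n γ len x.1 b j = 0 :=
        fun h => Finset.sum_eq_zero fun j hj => mul_eq_zero_of_right _
          (Finset.sum_eq_zero fun i _ => by
            by_contra hc
            exact h (stair hg x hc (Finset.mem_Ico.1 hj).1 (g0 k kN)))
      have := x.mem (b, L (γ b) k, 0)
      by_cases c0 : x.1 (b, L (γ b) k, 0) = 0
      · rw [B2 (by rw [c0]; norm_num), c0] at hs
        rw [c0, cl_zero (by linarith)]
      by_cases c1 : x.1 (b, L (γ b) k, 0) = 1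
      · rw [A2 c0, c1] at hs
        rw [c1, cl_one (by linarith)]
      · rw [A2 c0, B2 c1] at hs
        rw [cl_id (by linarith [this.1]) (by linarith [this.2])]; linarith
    · rw [h0 _ fun h => e h.1]; simp [Qf, ← hP, e]
  · have kN' : (N : ℝ) ≤ k := by exact_mod_cast kN
    have : Qf (fun _ _ => e0) (fun _ _ => 1) r (b, l, i) = 0 := by
      simp only [Qf, ← hk, lam]; split_ifs
      · exact cl_zero (by simp; linarith [hr b])
      · rfl
    rw [this]
    by_contra hc
    obtain ⟨⟨e1, e2⟩, km⟩ : OnP γ (b, l, i) ∧ k < m := by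
      by_contra h; exact hc (h0 _ h)
    simp only [← hk] at e1 e2
    rw [e1] at hc
    have p1 : 0 < uu n γ len x.1 b k := by
      have hl : (0 : ℝ) < len b k := by exact_mod_cast (hg _ _).1
      refine mul_pos (by positivity) (Finset.sum_pos' (fun i _ => (x.mem _).1)
        ⟨i, by simpa [sp] using e2, lt_of_le_of_ne (x.mem _).1 (Ne.symm hc)⟩)
    have p2 : ∑ j ∈ insert k (Finset.range N), uu n γ len x.1 b j ≤ r b := by
      rw [← hF b]
      refine Finset.sum_le_sum_of_subset_of_nonneg (fun j hj => ?_) fun j _ _ => u0 j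
      simp only [Finset.mem_insert, Finset.mem_range] at hj ⊢; omega
    rw [Finset.sum_insert (by simpa using kN), Finset.sum_congr rfl (g := fun _ => (1 : ℝ))
      fun j hj => by
        have hj := Finset.mem_range.1 hj
        rw [u1 j hj, stair hg x hc (hj.trans_le kN) (g0 j hj)]] at p2
    simp at p2; linarith [hr b]

lemma geo (hn : n ≠ 0) (he : Even n) (hg : Good n γ len) {N : ℕ}
    (hN : ∀ b, ∀ j < N, γ b j = e0 ∧ len b j = 1) {σ} (hσ : IsBicombing (dp VV n) σ)
    {a : Bool → ℝ} (ha : ∀ b, 0 ≤ a b) {s : ℝ} (hs : s ∈ Icc (0 : ℝ) 1) (hr : ∀ b, s * a b ≤ N) :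
    σ oo (Q hg a) s = QE (s • a) := by
  obtain ⟨m, hm⟩ := exists_nat_ge (a true + a false + N)
  have hN0 : (0 : ℝ) ≤ N := by positivity
  have hm' : ∀ b, a b ≤ m := by rintro (_ | _) <;> linarith [ha true, ha false]
  obtain ⟨s0, s1, hd⟩ := hσ oo (Q hg a)
  set x := σ oo (Q hg a) s
  have D : dp VV n oo (Q hg a) = nrm n a := by rw [← Q_zero hg, dp_Q hn hg ha]
  have key : ∀ h0, Psi n γ len m h0 x.1 = s • fun o : Option Bool => o.elim 0 a := fun h0 => by
    have h1 := Psi_lip hn hg m h0 x oo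
    have h2 := Psi_lip hn hg m h0 (Q hg a) x
    have d1 := hd s hs 0 (by simp)
    have d2 := hd 1 (by simp) s hs
    rw [s0, D, sub_zero, abs_of_nonneg hs.1] at d1
    rw [s1, D, abs_of_nonneg (sub_nonneg.2 hs.2)] at d2
    rw [d2, show (Q hg a).1 = Qf γ len a from rfl, Psi_Q hg ha hm'] at h2
    rw [d1, ← Q_zero hg, show (Q hg 0).1 = Qf γ len 0 from rfl,
      Psi_Q hg (a := 0) (fun _ => le_rfl) (fun _ => by simp),
      show (fun o : Option Bool => o.elim (0 : ℝ) 0) = 0 from funext fun o => by cases o <;> simp,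
      sub_zero] at h1
    exact strict hn he hs (by rwa [nrm_elim hn]) (by rwa [nrm_elim hn])
  refine ident hg hN (m := m) (by exact_mod_cast (by linarith [ha true, ha false] : (N : ℝ) ≤ m))
    x hr (fun b => ?_) fun h hh => ?_
  · simpa [Psi] using congrFun (key (true, [], 0)) (some b)
  · simpa [Psi, hh] using congrFun (key h) none

lemma gen_eq (hn : n ≠ 0) (he : Even n) (hg : Good n γ len) {N : ℕ}
    (hN : ∀ b, ∀ j < N, γ b j = e0 ∧ len b j = 1) {σ} (hσ : IsBicombing (dp VV n) σ)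
    {a : Bool → ℝ} (ha : ∀ b, 0 ≤ a b) (h1 : 1 ≤ a true) {M : ℝ} (hM : (N : ℝ) ≤ M) (t : ℝ≥0)
    (ht : (t : ℝ) < N) : gen (dp VV n) σ oo (Q hg (M • a)) t = QE (((t : ℝ) / nrm n a) • a) := by
  have M0 : 0 < M := (t.2.trans_lt ht).trans_le hM
  have ha' : ∀ b, 0 ≤ (M • a) b := fun b => mul_nonneg M0.le (ha b)
  have le : ∀ b, a b ≤ nrm n a := fun b => (le_abs_self _).trans (le_nrm hn a b)
  have d1 : 1 ≤ nrm n a := h1.trans (le _)
  have D : dp VV n oo (Q hg (M • a)) = M * nrm n a := by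
    rw [← Q_zero hg, dp_Q hn hg ha', nrm_smul hn, abs_of_pos M0]
  have s1 : (t : ℝ) / (M * nrm n a) ≤ 1 := (div_le_one (by positivity)).2 (by nlinarith)
  have e : ((t : ℝ) / (M * nrm n a)) • M • a = ((t : ℝ) / nrm n a) • a := by
    rw [smul_smul]; congr 1; field_simp
  rw [gen, D, min_eq_right s1, geo hn he hg hN hσ ha' ⟨by positivity, s1⟩, e]
  intro b
  have := congrFun e b
  simp only [Pi.smul_apply, smul_eq_mul] at this ⊢
  rw [this, div_mul_eq_mul_div, div_le_iff₀ (by positivity)]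
  nlinarith [le b, ha b, t.2]

def gN (N : ℕ) : Bool → ℕ → G := fun b j => if b = true ∧ N ≤ j then fun _ => true else e0
def lN (N c : ℕ) : Bool → ℕ → ℕ := fun b j => if b = true ∧ N ≤ j then c else 1

lemma goodN (N : ℕ) {c : ℕ} (hc : 0 < c) (h : c ^ n = 16) : Good n (gN N) (lN N c) := by
  intro b j
  simp only [gN, lN]
  split_ifs
  · simp [sp, hc, h]
  · simp [sp_e0]

lemma Qf_vertex (hg : Good n γ len) (J : Bool → ℕ) (h : W) :
    Qf γ len (fun b => Lam (len b) (J b)) h = Qf γ (fun _ _ => 1) (fun b => J b) h := by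
  have hl : (0 : ℝ) < len h.1 h.2.1.length := by exact_mod_cast (hg _ _).1
  simp only [Qf]; split_ifs
  · rcases lt_or_ge h.2.1.length (J h.1) with e | e
    · have h1 : (Lam (len h.1) (h.2.1.length + 1) : ℝ) ≤ Lam (len h.1) (J h.1) := by
        exact_mod_cast Lam_mono _ e
      have h2 : (h.2.1.length : ℝ) + 1 ≤ J h.1 := by exact_mod_cast e
      rw [Lam_succ] at h1; push_cast at h1
      rw [cl_one ((one_le_div hl).2 (by linarith)), cl_one (by simp [Lam]; linarith)]
    · have h1 : (Lam (len h.1) (J h.1) : ℝ) ≤ Lam (len h.1) h.2.1.length := by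
        exact_mod_cast Lam_mono _ e
      rw [cl_zero (div_nonpos_of_nonpos_of_nonneg (by linarith) hl.le),
        cl_zero (by simpa [Lam] using e)]
  · rfl

lemma Lam_lN (N c : ℕ) : Lam (lN N c true) (2 * N) = N + c * N := by
  rw [Lam, two_mul, Finset.sum_range_add, Finset.sum_congr rfl (g := fun _ => 1),
    Finset.sum_congr rfl (s₂ := Finset.range N) (f := fun j => lN N c true (N + j)) (g := fun _ => c)]
  · simp [mul_comm]
  · intro j _; simp [lN]
  · intro j hj; simp [lN, Finset.mem_range.1 hj]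

def a1 : Bool → ℝ := fun _ => 1
def a0 : Bool → ℝ := fun b => if b then 3 else 5

lemma xN_eq (N : ℕ) : Q (goodN (n := 2) N (c := 4) (by norm_num) (by norm_num)) ((5 * N : ℝ) • a1) =
    Q (goodN (n := 4) N (c := 2) (by norm_num) (by norm_num)) ((N : ℝ) • a0) := by
  refine Subtype.ext (funext fun h => ?_)
  have h2 := Qf_vertex (goodN (n := 2) N (c := 4) (by norm_num) (by norm_num))
    (fun b => if b then 2 * N else 5 * N) h
  have h4 := Qf_vertex (goodN (n := 4) N (c := 2) (by norm_num) (by norm_num))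
    (fun b => if b then 2 * N else 5 * N) h
  have l1 : ∀ c k, Lam (lN N c false) k = k := fun c k => by simp [Lam, lN]
  show Qf _ _ _ h = Qf _ _ _ h
  convert h2.trans h4.symm using 2
  · funext b; cases b <;> simp [a1, l1, Lam_lN]; ring
  · funext b; cases b <;> simp [a0, l1, Lam_lN] <;> ring

theorem noext (m₂ m₄ : MetricSpace (Pt VV)) {σ₂ σ₄} (h₂ : IsBicombing (dp VV 2) σ₂)
    (h₄ : IsBicombing (dp VV 4) σ₄) (Φ : Bar (dp VV 2) σ₂ oo → Bar (dp VV 4) σ₄ oo)
    (hc : @Continuous _ _ (coneTop m₂ _) (coneTop m₄ _) Φ)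
    (hΦ : ∀ x, (Φ ⟨gen (dp VV 2) σ₂ oo x, Or.inl ⟨x, rfl⟩⟩).1 = gen (dp VV 4) σ₄ oo x) : False := by
  have c2 : ((2 : ℕ) : ℝ) = 2 := by norm_num
  have c4 : ((4 : ℕ) : ℝ) = 4 := by norm_num
  have h₂' : IsBicombing (dp VV (2 : ℕ)) σ₂ := by rwa [c2]
  have h₄' : IsBicombing (dp VV (4 : ℕ)) σ₄ := by rwa [c4]
  have p1 : ∀ b, 0 ≤ a1 b := fun _ => zero_le_one
  have p0 : ∀ b, 0 ≤ a0 b := by rintro (_ | _) <;> norm_num [a0]
  have k2 : 1 ≤ nrm 2 a1 := by simpa [a1] using le_nrm two_ne_zero a1 true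
  let ray : ℝ≥0 → Pt VV := fun t => QE (((t : ℝ) / nrm 2 a1) • a1)
  have hray : ray ∈ Bar (dp VV 2) σ₂ oo := by
    refine Or.inr ⟨by simp [ray, oo], fun T => ?_⟩
    have pT : ∀ b, 0 ≤ (((T : ℝ) / nrm 2 a1) • a1) b := fun b => by simp [a1]; positivity
    refine ⟨?_, fun s hs => ?_⟩
    · have := dp_Q two_ne_zero (goodE' 2) pT
      rw [Q_zero, nrm_smul two_ne_zero, abs_of_nonneg (by positivity),
        div_mul_cancel₀ _ (by positivity), c2] at this
      exact this
    · obtain ⟨N, hN⟩ := exists_nat_ge (T : ℝ)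
      have := geo two_ne_zero even_two (goodE' 2) (N := N) (by simp) h₂' pT (s := s) ⟨s.2, hs⟩
        fun b => by
          have : (T : ℝ) / nrm 2 a1 ≤ T := div_le_self T.2 k2
          have h1 : (s : ℝ) ≤ 1 := hs
          have : 0 ≤ (T : ℝ) / nrm 2 a1 := by positivity
          simp only [a1, Pi.smul_apply, smul_eq_mul]; nlinarith [s.2]
      refine Eq.trans ?_ this.symm
      simp only [ray, smul_smul, NNReal.coe_mul, mul_div_assoc]
  have lim : ∀ (x : ℕ → Pt VV) (y : Pt VV),
      (∀ t : ℝ≥0, ∀ N : ℕ, (t : ℝ) < N → gen (dp VV 2) σ₂ oo (x N) t = ray t) →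
      (∀ N : ℕ, 1 < N → gen (dp VV 4) σ₄ oo (x N) 1 = y) → (Φ ⟨ray, hray⟩).1 1 = y := by
    intro x y hx hy
    have t1 : Tendsto (fun N => (⟨gen (dp VV 2) σ₂ oo (x N), Or.inl ⟨_, rfl⟩⟩ :
        Bar (dp VV 2) σ₂ oo)) atTop (@nhds _ (coneTop m₂ _) ⟨ray, hray⟩) := by
      let _ := m₂
      refine tendsto_subtype_rng.2 (tendsto_pi_nhds.2 fun t => tendsto_const_nhds.congr' ?_)
      filter_upwards [tendsto_natCast_atTop_atTop.eventually (eventually_gt_atTop (t : ℝ))]
        with N hN using (hx t N hN).symm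
    have t2 := (@Continuous.tendsto _ _ (coneTop m₂ _) (coneTop m₄ _) _ hc _).comp t1
    let _ := m₄
    have t3 := tendsto_pi_nhds.1 (tendsto_subtype_rng.1 t2) 1
    refine tendsto_nhds_unique t3 (tendsto_const_nhds.congr' ?_)
    filter_upwards [eventually_gt_atTop 1] with N hN
    simp only [Function.comp, hΦ, hy N hN]
  have hNg : ∀ N c b, ∀ j < N, gN N b j = e0 ∧ lN N c b j = 1 := fun N c b j hj => by
    simp [gN, lN, hj]
  have r1 := lim (fun N => Q (goodE' 2) ((N : ℝ) • a1)) _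
    (fun t N ht => by
      have := gen_eq two_ne_zero even_two (goodE' 2) (N := N) (by simp) h₂' p1 le_rfl le_rfl t ht
      rwa [c2] at this)
    (fun N hN => by
      have := gen_eq four_ne_zero (by decide) (goodE' 4) (N := N) (by simp) h₄' p1 le_rfl le_rfl 1
        (by exact_mod_cast hN)
      rw [c4] at this; exact this)
  have r2 := lim (fun N => Q (goodN (n := 2) N (c := 4) (by norm_num) (by norm_num))
      ((5 * N : ℝ) • a1)) _
    (fun t N ht => by
      have := gen_eq two_ne_zero even_two (goodN (n := 2) N (c := 4) (by norm_num) (by norm_num))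
        (hNg N 4) h₂' p1 le_rfl (M := 5 * N) (by have : (0 : ℝ) ≤ N := by positivity
                                                 linarith) t ht
      rwa [c2] at this)
    (fun N hN => by
      have := gen_eq four_ne_zero (by decide) (goodN (n := 4) N (c := 2) (by norm_num) (by norm_num))
        (hNg N 2) h₄' p0 (by norm_num [a0]) le_rfl 1 (by exact_mod_cast hN)
      rw [c4, ← xN_eq] at this; exact this)
  have e := congrArg Subtype.val (r1.symm.trans r2)
  have on : ∀ b, OnP (fun _ _ => e0) (b, [], 0) := fun b => ⟨rfl, rfl⟩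
  have e1 := congrFun e (true, [], 0)
  have e2 := congrFun e (false, [], 0)
  have k4 : 5 ≤ nrm 4 a0 := by simpa [a0] using le_nrm four_ne_zero a0 false
  simp only [QE, Q, Qf, on, if_true, Lam, a1, List.length_nil, Finset.range_zero,
    Finset.sum_empty, Pi.smul_apply, smul_eq_mul, NNReal.coe_one] at e1 e2
  rw [e1] at e2
  have q : 0 < 1 / nrm 4 a0 := by positivity
  have q' : 1 / nrm 4 a0 * 5 ≤ 1 := by rw [one_div, inv_mul_le_iff₀ (by positivity)]; linarith
  simp only [a0, if_true, Bool.false_eq_true, if_false, Nat.cast_zero, sub_zero, Nat.cast_one,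
    div_one] at e2 q q'
  rw [cl_id (by linarith) (by linarith), cl_id (by linarith) (by linarith)] at e2
  linarith

end Pool.Agent.H.MP_67b01c_gt
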