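import Pool.Agent.H.MP_67b01c_gt.E

namespace Pool.Agent.H.MP_67b01c_gt
open Set Filter Topology

variable {p : ℝ}

lemma seg (hp : 1 ≤ p) {x y : Pt VV} {c : ℝ} (h : Step VV p x y c) :
    ∃ f : ℝ → Pt VV, f 0 = x ∧ f c = y ∧ ∀ s t, dp VV p (f s) (f t) ≤ |s - t| := by
  have c0 := h.nonneg
  have hd := h.chain.dp_le
  obtain ⟨v, S, hx, hy, hc⟩ := h
  have inc : ∀ t : ℝ, InCube VV v S fun h => x.1 h + cl (t / c) * (y.1 h - x.1 h) := fun t =>
    ⟨hx.1, fun h hh => by
      have h1 := hx.2.1 h hh; have h2 := hy.2.1 h hh; have h3 := cl_mem (t / c)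
      constructor <;> nlinarith [h1.1, h1.2, h2.1, h2.2, h3.1, h3.2],
     fun h hh => by simp [hx.2.2 h hh, hy.2.2 h hh]⟩
  refine ⟨fun t => ⟨_, v, S, inc t⟩, Subtype.ext (funext fun h => by simp [cl]), ?_, fun s t => ?_⟩
  · rcases c0.eq_or_lt with rfl | c0
    · have : x = y := (met isCAT0 hp).eq_of_dist_eq_zero (le_antisymm hd (dp_nonneg _ _))
      subst this; exact Subtype.ext (funext fun h => by simp)
    · exact Subtype.ext (funext fun h => by simp [div_self c0.ne', cl])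
  · refine (Step.chain (x := ⟨_, v, S, inc s⟩) (y := ⟨_, v, S, inc t⟩)
      ⟨v, S, inc s, inc t, rfl⟩).dp_le.trans ?_
    have e : ∀ h, |x.1 h + cl (s / c) * (y.1 h - x.1 h) - (x.1 h + cl (t / c) * (y.1 h - x.1 h))| ^ p
        = |cl (s / c) - cl (t / c)| ^ p * |x.1 h - y.1 h| ^ p := fun h => by
      rw [← Real.mul_rpow (abs_nonneg _) (abs_nonneg _), ← abs_mul, ← abs_neg]; congr 2; ring
    simp only [e]
    rw [← Finset.mul_sum, Real.mul_rpow (by positivity) (by positivity), ← hc,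
      ← Real.rpow_mul (abs_nonneg _), mul_one_div_cancel (by positivity), Real.rpow_one]
    rcases c0.eq_or_lt with rfl | c0
    · simp
    · refine (mul_le_mul_of_nonneg_right (cl_lip _ _) c0.le).trans (le_of_eq ?_)
      rw [← sub_div, abs_div, abs_of_pos c0]; field_simp

lemma chain_path (hp : 1 ≤ p) {x y : Pt VV} {c : ℝ} (h : Chain VV p x y c) :
    ∃ f : ℝ → Pt VV, f 0 = x ∧ f c = y ∧ ∀ s t, dp VV p (f s) (f t) ≤ |s - t| := by
  let _ := met isCAT0 hp
  induction h with
  | nil x => exact ⟨fun _ => x, rfl, rfl, fun s t => (dist_self x).trans_le (abs_nonneg _)⟩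
  | @cons x y w c c' h h' ih =>
    obtain ⟨f, f0, f1, hf⟩ := seg hp h
    obtain ⟨g, g0, g1, hg⟩ := ih
    have key : ∀ s t, s ≤ c → ¬ t ≤ c → dp VV p (f s) (g (t - c)) ≤ |s - t| := fun s t hs ht => by
      have h1 := hf s c
      have h2 := hg 0 (t - c)
      rw [f1, abs_of_nonpos (by linarith)] at h1
      rw [g0, abs_of_nonpos (by linarith)] at h2
      rw [abs_of_nonpos (by linarith)]
      exact (dist_triangle _ y _).trans ((add_le_add h1 h2).trans (by linarith))
    refine ⟨fun t => if t ≤ c then f t else g (t - c), by simp [h.nonneg, f0], ?_, fun s t => ?_⟩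
    · rcases h'.nonneg.eq_or_lt with rfl | c0
      · simp [f1, ← g1, g0]
      · simp [c0, g1]
    · by_cases hs : s ≤ c <;> by_cases ht : t ≤ c <;> simp only [hs, ht, if_true, if_false]
      · exact hf s t
      · exact key s t hs ht
      · rw [abs_sub_comm]; exact (dist_comm (g (s - c)) (f t)).trans_le (key t s ht hs)
      · simpa using hg (s - c) (t - c)

lemma cube_chain' {v : W → Bool} {S : Finset W}
    (hc : ∀ w : W → Bool, (∀ h ∉ S, w h = v h) → w ∈ VV) (b) (γ : ℕ → G) (k : ℕ) :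
    ∀ i, ((b, L γ k, i) ∈ S ∨ v (b, L γ k, i) = true) → ∀ j < k, (0 < j → γ j ≠ z) ∧ ∀ i',
      (b, L γ j, i') ∉ S ∧ v (b, L γ j, i') = γ j i' := by
  induction k with
  | zero => simp
  | succ k ih =>
    intro i h j hj
    rw [L_succ] at h
    have hz : 0 < k → γ k ≠ z := fun hk => by
      refine ((hc (Function.update v (b, L γ k ++ [γ k], i) true) fun k' hk' => ?_).2 b (L γ k) (γ k) i
        (by simp)).2.resolve_right fun e => ?_
      · by_cases e : k' = (b, L γ k ++ [γ k], i)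
        · subst e; simp [h.resolve_left hk']
        · simp [e]
      · have := congrArg List.length e
        simp at this; omega
    rcases Nat.lt_succ_iff_lt_or_eq.1 hj with hj | rfl
    · obtain ⟨i0, h0⟩ := ne_z (hz (by omega))
      exact ih i0 (Or.inr (by rw [(cube_act hc h i0).2, h0])) j hj
    · exact ⟨hz, cube_act hc h⟩

lemma oo_val (h : W) : oo.1 h = 0 := by
  rw [oo, QE_val]; simp only [Qf]; split_ifs
  · exact cl_zero (div_nonpos_of_nonpos_of_nonneg (by simp) (by positivity))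
  · rfl

lemma depth (hp : 1 ≤ p) (x : Pt VV) (h : W) (hx : x.1 h ≠ 0) :
    (h.2.1.length : ℝ) ≤ dp VV p x oo + 1 := by
  obtain ⟨b, l, i⟩ := h
  obtain ⟨γ, k, rfl⟩ : ∃ γ k, l = L γ k :=
    ⟨fun j => l.getD j z, l.length, List.ext_getElem (by simp) fun j h1 h2 => by simp [L, h1]⟩
  obtain ⟨v, S, hc, h1, h2⟩ := x.2
  have ch := cube_chain' hc b γ k i (by
    by_contra hn; push Not at hn
    exact hx (by rw [h2 _ hn.1]; simp [hn.2]))
  have : ∀ j, ∃ i, j < k → 0 < j → γ j i = true := fun j => by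
    by_cases e : j < k ∧ 0 < j
    · obtain ⟨i, hi⟩ := ne_z ((ch j e.1).1 e.2); exact ⟨i, fun _ _ => hi⟩
    · exact ⟨0, fun a b => absurd ⟨a, b⟩ e⟩
  choose ι hι using this
  have := le_dp (p := p) isCAT0 (fun x y => |∑ j ∈ Finset.Ico 1 k, (x.1 (b, L γ j, ι j) -
      y.1 (b, L γ j, ι j))|) (by simp) (fun x y w => ?_) (fun x y c h => ?_) x oo
  · rw [Finset.sum_congr rfl (g := fun _ => (1 : ℝ)) fun j hj => by
      have hj := Finset.mem_Ico.1 hj
      rw [oo_val, h2 _ ((ch j hj.2).2 _).1, ((ch j hj.2).2 _).2, hι j hj.2 hj.1]; simp] at this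
    simp only [Finset.sum_const, Nat.card_Ico, nsmul_eq_mul, mul_one, Nat.abs_cast, L_len] at this ⊢
    have h3 : (k : ℝ) ≤ (k - 1 : ℕ) + 1 := by exact_mod_cast (by omega : k ≤ k - 1 + 1)
    linarith
  · simp only [Finset.sum_sub_distrib]; exact abs_sub_le _ _ _
  · have co := fun w => (coord_le isCAT0 hp w x y).trans h.chain.dp_le
    have c0 := h.nonneg
    obtain ⟨v, S, hx, hy, -⟩ := h
    have d0 : ∀ h ∉ S, x.1 h - y.1 h = 0 := fun h hh => by simp [hx.2.2 h hh, hy.2.2 h hh]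
    by_cases e : ∃ j ∈ Finset.Ico 1 k, (b, L γ j, ι j) ∈ S
    · obtain ⟨j, hj, hS⟩ := e
      rw [Finset.sum_eq_single j (fun j' _ hj' => d0 _ fun hS' => ?_) fun h => absurd hj h]
      · exact co _
      · rcases lt_or_gt_of_ne hj' with e | e
        · exact ((cube_chain' hx.1 b γ j _ (Or.inl hS) j' e).2 _).1 hS'
        · exact ((cube_chain' hx.1 b γ j' _ (Or.inl hS') j e).2 _).1 hS
    · push Not at e
      rw [Finset.sum_eq_zero fun j hj => d0 _ (e j hj)]; simpa using c0

lemma cube_compact (hp : 1 ≤ p) (v : W → Bool) (S : Finset W) :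
    letI := met isCAT0 hp
    ∃ K : Set (Pt VV), IsCompact K ∧ {x | InCube VV v S x.1} ⊆ K := by
  let _ := met isCAT0 hp
  by_cases hc : ∀ w : W → Bool, (∀ h ∉ S, w h = v h) → w ∈ VV
  swap
  · exact ⟨∅, isCompact_empty, fun x hx => hc hx.1⟩
  have inc : ∀ u : W → ℝ, InCube VV v S fun h => if h ∈ S then cl (u h) else if v h then 1 else 0 :=
    fun u => ⟨hc, fun h hh => by simpa [hh] using cl_mem _, fun h hh => by simp [hh]⟩
  let φ : (W → ℝ) → Pt VV := fun u => ⟨_, v, S, inc u⟩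
  have cont : Continuous φ := by
    refine continuous_iff_continuousAt.2 fun u0 => tendsto_iff_dist_tendsto_zero.2 ?_
    have hc : Continuous fun u : W → ℝ => (∑ h ∈ S, |cl (u h) - cl (u0 h)| ^ p) ^ (1 / p) := by
      refine Continuous.rpow_const (continuous_finsetSum _ fun h _ => Continuous.rpow_const ?_
        fun _ => Or.inr (by positivity)) fun _ => Or.inr (by positivity)
      unfold cl; fun_prop
    refine squeeze_zero (fun _ => dist_nonneg) (fun u => ?_) (hc.tendsto' u0 0 ?_)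
    · refine (Step.chain (x := φ u) (y := φ u0) ⟨v, S, inc u, inc u0, ?_⟩).dp_le
      congr 1
      exact Finset.sum_congr rfl fun h hh => by simp [φ, hh]
    · have : p ≠ 0 := by positivity
      simp [this]
  refine ⟨_, (isCompact_univ_pi fun _ : W => isCompact_Icc (a := (0 : ℝ)) (b := 1)).image cont,
    fun x hx => ⟨x.1, fun h _ => x.mem h, Subtype.ext (funext fun h => ?_)⟩⟩
  by_cases hh : h ∈ S
  · simp [φ, hh, cl_id (x.mem h).1 (x.mem h).2]
  · simp [φ, hh, hx.2.2 h hh]

lemma ball_compact (hp : 1 ≤ p) (R : ℝ) :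
    letI := met isCAT0 hp
    ∃ K : Set (Pt VV), IsCompact K ∧ {x | dp VV p x oo ≤ R} ⊆ K := by
  let _ := met isCAT0 hp
  choose K hK hK' using cube_compact hp
  obtain ⟨M, hM⟩ := exists_nat_ge (R + 1)
  let F := (fin_len M).toFinset
  refine ⟨⋃ T ∈ F.powerset ×ˢ F.powerset, K (fun h => decide (h ∈ T.1)) T.2,
    Finset.isCompact_biUnion _ fun _ _ => hK _ _, fun x hx => ?_⟩
  have hF : ∀ h, x.1 h ≠ 0 → h ∈ F := fun h hh => by
    have := depth hp x h hh
    have hx : dp VV p x oo ≤ R := hx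
    simp only [F, Finite.mem_toFinset, mem_setOf_eq]
    exact_mod_cast (by linarith : (h.2.1.length : ℝ) ≤ M)
  obtain ⟨v, S, hc, h1, h2⟩ := x.2
  refine mem_biUnion (x := (F.filter fun h => h ∉ S ∧ v h = true, S.filter fun h => x.1 h ≠ 0))
    (by
      simp only [Finset.mem_coe, Finset.mem_product, Finset.mem_powerset]
      exact ⟨Finset.filter_subset _ _, fun h hh => hF h (Finset.mem_filter.1 hh).2⟩)
    (hK' _ _ ⟨fun w hw => hc w fun h hh => ?_, fun h hh => h1 h (Finset.mem_filter.1 hh).1,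
      fun h hh => ?_⟩)
  · rw [hw h (by simp [hh])]
    cases e : v h
    · simp [e]
    · simp [e, hh, hF h (by simp [h2 h hh, e])]
  · by_cases e : h ∈ S
    · simpa [e] using hh
    · rw [h2 h e]
      cases e' : v h
      · simp [e']
      · simp [e, e', hF h (by simp [h2 h e, e'])]

lemma geod_ex (hp : 1 ≤ p) (x y : Pt VV) : ∃ f : ℝ → Pt VV, f 0 = x ∧ f 1 = y ∧
    ∀ s ∈ Icc (0 : ℝ) 1, ∀ t ∈ Icc (0 : ℝ) 1, dp VV p (f s) (f t) = |s - t| * dp VV p x y := by
  let _ := met isCAT0 hp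
  set D := dp VV p x y with hD
  obtain ⟨K, hK, hK'⟩ := ball_compact hp (D + 1 + dp VV p x oo)
  let C : ℕ → Set (ℝ → Pt VV) := fun k => univ.pi (fun _ => K) ∩ ({f | f 0 = x} ∩ ({f | f 1 = y} ∩
    ⋂ s, ⋂ t, {f | dist (f s) (f t) ≤ |s - t| * (D + 1 / ((k : ℝ) + 1))}))
  have cl' : ∀ k, IsClosed ({f : ℝ → Pt VV | f 0 = x} ∩ ({f | f 1 = y} ∩
      ⋂ s, ⋂ t, {f | dist (f s) (f t) ≤ |s - t| * (D + 1 / ((k : ℝ) + 1))})) := fun k =>
    (isClosed_eq (continuous_apply _) continuous_const).inter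
      ((isClosed_eq (continuous_apply _) continuous_const).inter
        (isClosed_iInter fun s => isClosed_iInter fun t => isClosed_le (by fun_prop) (by fun_prop)))
  have hC : ∀ k, IsCompact (C k) := fun k => (isCompact_univ_pi fun _ => hK).inter_right (cl' k)
  obtain ⟨f, hf⟩ := IsCompact.nonempty_iInter_of_sequence_nonempty_isCompact_isClosed C
    (fun k f hf => ⟨hf.1, hf.2.1, hf.2.2.1, by
      have := hf.2.2.2
      simp only [mem_iInter, mem_setOf_eq] at this ⊢
      refine fun s t => (this s t).trans ?_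
      gcongr; simp⟩)
    (fun k => by
      have k1 : 1 / ((k : ℝ) + 1) ≤ 1 := by rw [div_le_one (by positivity)]; simp
      obtain ⟨c, hc, hc'⟩ := exists_lt_of_csInf_lt (chain_ex isCAT0 x y (p := p))
        (show D < D + 1 / ((k : ℝ) + 1) from lt_add_of_pos_right _ (by positivity))
      have c0 := Chain.nonneg hc
      obtain ⟨g, g0, g1, hg⟩ := chain_path hp hc
      refine ⟨fun t => g (cl t * c), fun t _ => hK' ?_, by simp [cl, g0], by simp [cl, g1], ?_⟩
      · have := hg (cl t * c) 0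
        rw [g0, sub_zero, abs_of_nonneg (mul_nonneg (cl_mem t).1 c0)] at this
        have h2 : cl t * c ≤ c := mul_le_of_le_one_left c0 (cl_mem t).2
        exact (dist_triangle _ x _).trans (add_le_add (this.trans (by linarith)) le_rfl)
      · simp only [mem_iInter, mem_setOf_eq]
        refine fun s t => (hg _ _).trans ?_
        rw [← sub_mul, abs_mul, abs_of_nonneg c0]
        exact mul_le_mul (cl_lip _ _) hc'.le c0 (abs_nonneg _))
    (hC 0) fun k => (hC k).isClosed
  rw [mem_iInter] at hf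
  have f0 : f 0 = x := (hf 0).2.1
  have f1 : f 1 = y := (hf 0).2.2.1
  have le : ∀ s t, dist (f s) (f t) ≤ |s - t| * D := fun s t => by
    have := (tendsto_one_div_add_atTop_nhds_zero_nat.const_add D).const_mul |s - t|
    rw [add_zero] at this
    exact ge_of_tendsto' this fun k => mem_iInter.1 (mem_iInter.1 (hf k).2.2.2 s) t
  have ge : ∀ s ∈ Icc (0 : ℝ) 1, ∀ t ∈ Icc (0 : ℝ) 1, s ≤ t → |s - t| * D ≤ dist (f s) (f t) :=
    fun s hs t ht st => by
      have h1 := le 0 s
      have h2 := le t 1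
      have h3 : D ≤ _ := dist_triangle4 x (f s) (f t) y
      rw [f0, abs_of_nonpos (by linarith [hs.1])] at h1
      rw [f1, abs_of_nonpos (by linarith [ht.2])] at h2
      rw [abs_of_nonpos (by linarith)]; linarith
  refine ⟨f, f0, f1, fun s hs t ht => le_antisymm (le s t) ?_⟩
  rcases le_total s t with e | e
  · exact ge s hs t ht e
  · rw [abs_sub_comm]; exact (ge t ht s hs e).trans_eq (dist_comm _ _)

lemma bic_ex (hp : 1 ≤ p) : ∃ σ, IsBicombing (dp VV p) σ := by
  choose σ h using geod_ex hp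
  exact ⟨σ, h⟩

end Pool.Agent.H.MP_67b01c_gt
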